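import Pool.Agent.H699.T.Unit

/-!
# Uniform convergence over hypotheses of small support
-/

set_option autoImplicit false

namespace Pool.Agent.H474.T.TwoA

open Finset Classical
open Pool.Agent.H699.T

theorem t_2A : S_EXBASIC → S_CONC → S_COUNT → S_2A := by
  rintro ⟨-, -, -, -, -, -, -, -, -, hmono, -, hunion⟩ hconc hcount K a W ε pf ha hW hε hpf
  have ha0 : (0 : ℝ) < a := by exact_mod_cast ha
  obtain ⟨e, he⟩ : ∃ e : ℝ, e = ε / a := ⟨_, rfl⟩
  have he0 : 0 < e := by rw [he]; positivity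
  obtain ⟨W', hW'⟩ : ∃ W' : ℝ, W' = max W e := ⟨_, rfl⟩
  have hW1 : W ≤ W' := by rw [hW']; exact le_max_left _ _
  have hW2 : e ≤ W' := by rw [hW']; exact le_max_right _ _
  have hW0 : 0 < W' := lt_of_lt_of_le hW hW1
  obtain ⟨ζ, hζ⟩ : ∃ ζ : ℝ, ζ = e ^ 2 / (8 * W' ^ 2) := ⟨_, rfl⟩
  have hζ0 : 0 < ζ := by rw [hζ]; positivity
  obtain ⟨δ1, hδ1, hc⟩ := hcount K ζ hζ0
  refine ⟨δ1, hδ1, ⌈-Real.log pf / ζ⌉₊, fun N hN F hF => ?_⟩
  have hN1 : -Real.log pf ≤ ζ * N := by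
    have h1 : -Real.log pf / ζ ≤ N := (Nat.le_ceil _).trans (by exact_mod_cast hN)
    rw [div_le_iff₀ hζ0] at h1
    linarith
  have h1 : ∀ h : Fin N → Fin (K + 1), pr (fun ω : Fin N → Fin a =>
      a * ∑ v ∈ zs ω, F h v + ε * N ≤ ∑ v, F h v) ≤ Real.exp (-(2 * ζ * N)) := by
    intro h
    have h2 := hconc N a ha (fun v => -F h v) W' e hW0 (fun v => by
      rw [abs_neg, abs_of_nonneg (hF h v).1]
      exact (hF h v).2.trans hW1) he0 hW2
    refine (hmono _ _ _ ?_).trans (h2.trans (le_of_eq ?_))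
    · intro ω hω
      rw [Finset.sum_neg_distrib, Finset.sum_neg_distrib, he]
      have h3 : (∑ v ∈ zs ω, F h v) + ε / a * N ≤ (∑ v, F h v) / a := by
        rw [le_div_iff₀ ha0]
        have h4 : ((∑ v ∈ zs ω, F h v) + ε / a * N) * a = a * ∑ v ∈ zs ω, F h v + ε * N := by
          field_simp
        rw [h4]
        exact hω
      have h5 : (-∑ v, F h v) / (a : ℝ) = -((∑ v, F h v) / a) := neg_div _ _
      rw [h5]
      linarith
    · rw [hζ]
      congr 1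
      field_simp
      ring
  have h2 := hunion (Fin N → Fin a) (Fin N → Fin (K + 1)) ((univ : Finset (Fin N → Fin (K + 1))).filter
    (fun h => ((univ.filter fun v => (h v : ℕ) ≠ 0).card : ℝ) ≤ δ1 * N))
    (fun h ω => a * ∑ v ∈ zs ω, F h v + ε * N ≤ ∑ v, F h v)
  refine (hmono _ _ _ ?_).trans (h2.trans ?_)
  · rintro ω ⟨h, h3, h4⟩
    exact ⟨h, Finset.mem_filter.2 ⟨Finset.mem_univ _, h3⟩, h4⟩
  · refine (Finset.sum_le_card_nsmul _ _ _ fun h _ => h1 h).trans ?_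
    rw [nsmul_eq_mul]
    calc _ ≤ Real.exp (ζ * N) * Real.exp (-(2 * ζ * N)) :=
          mul_le_mul_of_nonneg_right (hc N) (Real.exp_pos _).le
      _ = Real.exp (-(ζ * N)) := by rw [← Real.exp_add]; congr 1; ring
      _ ≤ Real.exp (Real.log pf) := Real.exp_le_exp.2 (by linarith)
      _ = pf := Real.exp_log hpf

end Pool.Agent.H474.T.TwoA
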